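import Mathlib

set_option autoImplicit false

/-!
The number of cycles of the base-`b` elated function is unbounded as `b` increases.
-/

namespace Pool.Agent.Results.MP_096971_nt.UnboundedCycles

/-- The base-`b` elated function: the sum of the squares of the digits of `a` in base `b`, times the
leading digit. -/
def E (b a : ℕ) : ℕ := (Nat.digits b a).getLastD 0 * ((Nat.digits b a).map fun d => d ^ 2).sum

/-- `S = {x_0, ..., x_{k-1}}` is a cycle of the base-`b` elated function: `k ≥ 1`, the `x_j` are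
distinct positive integers, and `E(x_j) = x_{j+1}`, the indices being read modulo `k`. -/
def IsCycle (b : ℕ) (S : Set ℕ) : Prop :=
  ∃ k : ℕ, 1 ≤ k ∧ ∃ x : ZMod k → ℕ, Function.Injective x ∧ (∀ j, 0 < x j) ∧
    (∀ j, E b (x j) = x (j + 1)) ∧ S = Set.range x

/-- `C(b)`, the number of distinct cycles (in `ℕ ∪ {∞}`). -/
noncomputable def C (b : ℕ) : ℕ∞ := {S : Set ℕ | IsCycle b S}.encard

/-! ### Fixed points with three digits -/

theorem digits_three {b y z : ℕ} (hb : 3 ≤ b) (hy : y < b) (hz : z < b) :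
    Nat.digits b (2 * b ^ 2 + y * b + z) = [z, y, 2] := by
  have h1 : 2 * b ^ 2 + y * b + z = z + b * (y + b * 2) := by ring
  rw [h1, Nat.digits_add b (by omega) z _ hz (Or.inr (by positivity)),
    Nat.digits_add b (by omega) y _ hy (Or.inr (by norm_num)), Nat.digits_of_lt b 2 (by norm_num)
    (by omega)]

theorem fixed {b y z : ℕ} (hb : 3 ≤ b) (hy : y < b) (hz : z < b)
    (h : 2 * y ^ 2 + 2 * z ^ 2 + 8 = 2 * b ^ 2 + y * b + z) :
    E b (2 * b ^ 2 + y * b + z) = 2 * b ^ 2 + y * b + z := by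
  unfold E
  rw [digits_three hb hy hz]
  simp only [List.getLastD_cons, List.getLastD_nil, List.map_cons, List.map_nil, List.sum_cons, List.sum_nil]
  rw [← h]
  ring

theorem isCycle_singleton {b a : ℕ} (ha : 0 < a) (h : E b a = a) : IsCycle b {a} := by
  refine ⟨1, le_rfl, fun _ => a, fun i j _ => Subsingleton.elim i j, fun _ => ha, fun _ => h, ?_⟩
  ext x
  simp [eq_comm]

theorem lt_C {b M : ℕ} (S : Finset ℕ) (hS : S.card = M + 1) (h0 : ∀ a ∈ S, 0 < a)
    (h : ∀ a ∈ S, E b a = a) : (M : ℕ∞) < C b := by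
  have h1 : ((S : Set ℕ).image fun a => ({a} : Set ℕ)) ⊆ {S : Set ℕ | IsCycle b S} := by
    rintro _ ⟨a, ha, rfl⟩
    exact isCycle_singleton (h0 a ha) (h a ha)
  have h2 : ((S : Set ℕ).image fun a => ({a} : Set ℕ)).encard = (M + 1 : ℕ) := by
    rw [Set.InjOn.encard_image (fun a _ c _ hac => Set.singleton_injective hac), Set.encard_coe_eq_coe_finsetCard,
      hS]
  calc (M : ℕ∞) < (M + 1 : ℕ) := by exact_mod_cast Nat.lt_succ_self M
    _ ≤ C b := by rw [← h2]; exact Set.encard_le_encard h1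

/-! ### The moduli `t ^ 2 + 1` -/

/-- Pell's equation -/
theorem pell {N : ℤ} (hN : 0 < N) : ∃ X T : ℤ, X ^ 2 = 2 * T ^ 2 + 1 ∧ N ∣ T ∧ 0 < T := by
  have hns : ¬ IsSquare (2 * N ^ 2) := by
    rintro ⟨r, hr⟩
    have h1 : (2 : ℤ) * N ^ 2 = r ^ 2 := by rw [hr]; ring
    have h2 : Irrational (Real.sqrt 2) := irrational_sqrt_two
    apply h2
    refine ⟨|(r : ℚ) / N|, ?_⟩
    have hNr : (N : ℝ) ≠ 0 := by exact_mod_cast hN.ne'
    have h3 : (2 : ℝ) = ((r : ℝ) / N) ^ 2 := by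
      field_simp
      exact_mod_cast h1
    rw [h3, Real.sqrt_sq_eq_abs]
    push_cast
    rfl
  obtain ⟨x, y, hxy, hy⟩ := Pell.exists_of_not_isSquare (d := 2 * N ^ 2) (by positivity) hns
  refine ⟨x, N * |y|, ?_, Dvd.intro _ rfl, mul_pos hN (abs_pos.2 hy)⟩
  rw [mul_pow, sq_abs]
  linarith

/-- many moduli `t ^ 2 + 1` which divide `(σ + 128 t) ^ 2 + 26775` for the same `σ` -/
theorem moduli (M : ℕ) : ∃ (N σ : ℤ) (S : Finset ℤ), S.card = M ∧ 0 < N ∧ 10880 ∣ N ∧
    10880 ∣ σ - 19 ∧ ∀ t ∈ S, 100 ≤ t ∧ t < N ∧ 4 ∣ t ∧ (t ^ 2 + 1) ∣ N ∧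
      IsCoprime (t ^ 2 + 1) 10880 ∧ (t ^ 2 + 1) ∣ (σ + 128 * t) ^ 2 + 26775 := by
  induction M with
  | zero => exact ⟨10880, 19, ∅, rfl, by norm_num, dvd_refl _, by norm_num, by simp⟩
  | succ M ih =>
    obtain ⟨N, σ, S, hS, hN, hdN, hσ, hall⟩ := ih
    obtain ⟨X, T, hX, hNT, hT⟩ := pell hN
    obtain ⟨T', rfl⟩ := hNT
    have hT'pos : 0 < T' := by
      by_contra hcon
      have : N * T' ≤ 0 := mul_nonpos_of_nonneg_of_nonpos hN.le (not_lt.1 hcon)
      omega
    have hNle : N ≤ N * T' := by nlinarith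
    have hN2 : 10880 ≤ N := Int.le_of_dvd hN hdN
    set t := 11 * (N * T') with ht
    set n := t ^ 2 + 1 with hn
    have hnN : (n : ℤ) - 121 * N * T' ^ 2 * N = 1 := by rw [hn, ht]; ring
    set R := 11 * X with hR
    have hR2 : R ^ 2 - 119 = 2 * n := by rw [hR, hn, ht, mul_pow, hX]; ring
    set ρ := -t * (128 + 15 * R) with hρ
    -- `σ' = σ + a N (ρ - σ)` with `a N + n = 1`
    set a := -(121 * N * T' ^ 2) with ha
    have haN : a * N + n = 1 := by rw [ha]; linarith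
    set σ' := σ + a * N * (ρ - σ) with hσ'
    have htN : N < t := by rw [ht]; linarith
    have hnpos : 0 < n := by rw [hn]; positivity
    have htS : t ∉ S := by
      intro h
      have := (hall t h).2.1
      linarith
    have hNn : N ≤ N * n := by nlinarith
    refine ⟨N * n, σ', insert t S, ?_, by positivity, hdN.mul_right n, ?_, ?_⟩
    · rw [Finset.card_insert_of_notMem htS, hS]
    · have : σ' - 19 = (σ - 19) + N * (a * (ρ - σ)) := by rw [hσ']; ring
      rw [this]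
      exact dvd_add hσ (hdN.mul_right _)
    · intro t' ht'
      rw [Finset.mem_insert] at ht'
      rcases ht' with rfl | ht'
      · refine ⟨by linarith, ?_, ?_, Dvd.intro_left N rfl, ?_, ?_⟩
        · have h1 : t < n := by rw [hn]; nlinarith
          have h2 : n ≤ N * n := by nlinarith
          linarith
        · have h4 : (4 : ℤ) ∣ N := dvd_trans (by norm_num) hdN
          rw [ht]
          exact Dvd.dvd.mul_left (h4.mul_right _) _
        · obtain ⟨N', hN'⟩ := hdN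
          refine ⟨1, -(121 * N * T' ^ 2 * N'), ?_⟩
          linear_combination hnN + 121 * N * T' ^ 2 * hN'
        · have h1 : σ' + 128 * t = -(15 * t * R) + n * (σ - ρ) := by
            rw [hσ']
            linear_combination (ρ - σ) * haN + hρ
          rw [h1]
          refine ⟨225 * R ^ 2 - 450 + (2 * -(15 * t * R) * (σ - ρ) + n * (σ - ρ) ^ 2), ?_⟩
          have h2 : t ^ 2 = n - 1 := by rw [hn]; ring
          linear_combination (225 * R ^ 2) * h2 - 225 * hR2
      · obtain ⟨h1, h2, h3, h4, h5, h6⟩ := hall t' ht'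
        refine ⟨h1, by linarith, h3, h4.mul_right n, h5, ?_⟩
        obtain ⟨c, hc⟩ := h4
        obtain ⟨e, he⟩ := h6
        rw [hσ']
        refine ⟨e + c * (a * (ρ - σ)) * (2 * (σ + 128 * t') + N * (a * (ρ - σ))), ?_⟩
        linear_combination he + (a * (ρ - σ)) * (2 * (σ + 128 * t') + N * (a * (ρ - σ))) * hc

/-! ### The fixed points -/

/-- the base `b = 2 + 19 s + 5440 s ^ 2` and a fixed point with leading digit `2` from `t` -/
theorem flip {s t : ℤ} (hs : 1 ≤ s) (ht : 100 ≤ t) (h4 : 4 ∣ t) (hcop : IsCoprime (t ^ 2 + 1) 10880)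
    (hd : (t ^ 2 + 1) ∣ (10880 * s + 19 + 128 * t) ^ 2 + 26775) :
    ∃ y z g h : ℤ, 0 ≤ y ∧ y < 2 + 19 * s + 5440 * s ^ 2 ∧ 0 ≤ z ∧ z < 2 + 19 * s + 5440 * s ^ 2 ∧
      2 * y ^ 2 + 2 * z ^ 2 + 8 = 2 * (2 + 19 * s + 5440 * s ^ 2) ^ 2
        + y * (2 + 19 * s + 5440 * s ^ 2) + z ∧
      4 * y - (2 + 19 * s + 5440 * s ^ 2) = t * h + g ∧ 4 * z - 1 = t * g - h ∧
      14144 * s ^ 2 + 459 * s + 2 = t * h - g ∧ 17408 * s ^ 2 - 272 * s + 1 = t * g + h := by
  set b := 2 + 19 * s + 5440 * s ^ 2 with hb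
  set U := 14144 * s ^ 2 + 459 * s + 2 with hU
  set V := 17408 * s ^ 2 - 272 * s + 1 with hV
  set n := t ^ 2 + 1 with hn
  have hnpos : 0 < n := by positivity
  have hcop2 : IsCoprime n 108800 := by
    have h1 : IsCoprime n (10880 * 10880) := hcop.mul_right hcop
    exact h1.of_isCoprime_of_dvd_right (by norm_num)
  obtain ⟨e, he⟩ := hd
  have hg : n ∣ t * V - U := by
    apply hcop2.dvd_of_dvd_mul_left
    refine ⟨(16 * t - 13) * (e - 16384) - 4096 * (10880 * s + 19), ?_⟩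
    rw [hU, hV]
    linear_combination (16 * t - 13) * he
      + ((16 * t - 13) * 16384 + 4096 * (10880 * s + 19)) * hn
  have hh : n ∣ t * U + V := by
    apply hcop2.dvd_of_dvd_mul_left
    refine ⟨(13 * t + 16) * (e - 16384) - 3328 * (10880 * s + 19), ?_⟩
    rw [hU, hV]
    linear_combination (13 * t + 16) * he
      + ((13 * t + 16) * 16384 + 3328 * (10880 * s + 19)) * hn
  obtain ⟨g, hg⟩ := hg
  obtain ⟨h, hh⟩ := hh
  have e1 : U = t * h - g := by
    apply mul_left_cancel₀ hnpos.ne'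
    linear_combination U * hn + t * hh - hg
  have e2 : V = t * g + h := by
    apply mul_left_cancel₀ hnpos.ne'
    linear_combination V * hn + t * hg + hh
  obtain ⟨t', ht'⟩ := h4
  have hs2 : s ≤ s ^ 2 := by nlinarith
  have b1 : 0 < U := by rw [hU]; nlinarith
  have b2 : 10 * U ≤ 27 * b := by rw [hU, hb]; nlinarith
  have b3 : 3 * b ≤ V := by rw [hV, hb]; nlinarith
  have b4 : 10 * V ≤ 33 * b := by rw [hV, hb]; nlinarith
  have b5 : 0 < b := by rw [hb]; nlinarith
  have b5' : 400 ≤ b := by rw [hb]; nlinarith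
  have b6 : 20 * g ≤ b := by
    apply le_of_mul_le_mul_left _ hnpos
    have h1 : 66 * t ≤ n := by rw [hn]; nlinarith
    have h2 : n * (20 * g) = 20 * (t * V - U) := by rw [hg]; ring
    have h3 : t * (10 * V) ≤ t * (33 * b) := mul_le_mul_of_nonneg_left b4 (by linarith)
    have h4 : (66 * t) * b ≤ n * b := mul_le_mul_of_nonneg_right h1 b5.le
    rw [h2]; nlinarith
  have b7 : -b ≤ 20 * g := by
    apply le_of_mul_le_mul_left _ hnpos
    have h1 : 54 ≤ n := by rw [hn]; nlinarith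
    have h2 : n * (20 * g) = 20 * (t * V - U) := by rw [hg]; ring
    have h3 : 0 ≤ t * V := mul_nonneg (by linarith) (by linarith)
    have h4 : 54 * b ≤ n * b := mul_le_mul_of_nonneg_right h1 b5.le
    rw [h2]; nlinarith
  have b8 : 20 * h ≤ b := by
    apply le_of_mul_le_mul_left _ hnpos
    have h1 : 54 * t + 66 ≤ n := by rw [hn]; nlinarith
    have h2 : n * (20 * h) = 20 * (t * U + V) := by rw [hh]; ring
    have h3 : t * (10 * U) ≤ t * (27 * b) := mul_le_mul_of_nonneg_left b2 (by linarith)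
    have h4 : (54 * t + 66) * b ≤ n * b := mul_le_mul_of_nonneg_right h1 b5.le
    rw [h2]; nlinarith
  have b9 : 0 ≤ h := by
    by_contra hcon
    have h1 : n * h < 0 := mul_neg_of_pos_of_neg hnpos (not_le.1 hcon)
    have h2 : 0 ≤ t * U := mul_nonneg (by linarith) b1.le
    linarith
  have eU : U = 4 * (2176 * s ^ 2 + 110 * s) + b := by rw [hU, hb]; ring
  have eV : V = 4 * (4352 * s ^ 2 - 68 * s) + 1 := by rw [hV]; ring
  refine ⟨2 * t' * h - (2176 * s ^ 2 + 110 * s), 2 * t' * g - (4352 * s ^ 2 - 68 * s), g, h, ?_⟩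
  set y := 2 * t' * h - (2176 * s ^ 2 + 110 * s) with hy
  set z := 2 * t' * g - (4352 * s ^ 2 - 68 * s) with hz
  have f1 : 4 * y - b = t * h + g := by
    rw [hy]; linear_combination -2 * h * ht' - e1 + eU
  have f2 : 4 * z - 1 = t * g - h := by
    rw [hz]; linear_combination -2 * g * ht' - e2 + eV
  have f3 : U ^ 2 + V ^ 2 = 17 * b ^ 2 - 63 := by rw [hU, hV, hb]; ring
  have f4 : (4 * y - b) ^ 2 + (4 * z - 1) ^ 2 = 17 * b ^ 2 - 63 := by
    rw [f1, f2, ← f3, e1, e2]; ring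
  refine ⟨by linarith, by linarith, by linarith, by linarith, ?_, f1, f2, e1, e2⟩
  have f5 : 8 * (2 * y ^ 2 + 2 * z ^ 2 + 8) = 8 * (2 * b ^ 2 + y * b + z) := by
    linear_combination f4
  linarith

/-- for every `M` there is a base with `M + 1` fixed points -/
theorem exists_base (M : ℕ) : ∃ b : ℕ, 3 ≤ b ∧ ∃ S : Finset ℕ, S.card = M + 1 ∧
    ∀ a ∈ S, 0 < a ∧ E b a = a := by
  obtain ⟨N, σ₀, S, hS, hN, hdN, hσ₀, hall⟩ := moduli (M + 1)
  -- choose `σ` large
  obtain ⟨s, hs1, hs⟩ : ∃ s : ℤ, 1 ≤ s ∧ N ∣ (10880 * s + 19) - σ₀ := by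
    obtain ⟨s₀, hs₀⟩ := hσ₀
    obtain ⟨N', hN'⟩ := hdN
    have hN'pos : 0 < N' := by
      by_contra hcon
      have : 10880 * N' ≤ 0 := by linarith
      linarith
    refine ⟨s₀ + N' * (|s₀| + 1), ?_, ⟨|s₀| + 1, ?_⟩⟩
    · have h1 : |s₀| + 1 ≤ N' * (|s₀| + 1) := by
        have := abs_nonneg s₀
        nlinarith
      have h2 := neg_abs_le s₀
      linarith
    · rw [hN']
      linear_combination -hs₀
  set bz : ℤ := 2 + 19 * s + 5440 * s ^ 2 with hbz
  have hbpos : 3 ≤ bz := by rw [hbz]; nlinarith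
  obtain ⟨b, hb⟩ : ∃ b : ℕ, (b : ℤ) = bz := ⟨bz.toNat, Int.toNat_of_nonneg (by linarith)⟩
  have hb3 : 3 ≤ b := by exact_mod_cast hb.symm ▸ hbpos
  have key : ∀ t ∈ S, ∃ y z : ℕ, ∃ g h : ℤ, y < b ∧ z < b ∧
      2 * y ^ 2 + 2 * z ^ 2 + 8 = 2 * b ^ 2 + y * b + z ∧
      4 * (y : ℤ) - b = t * h + g ∧ 4 * (z : ℤ) - 1 = t * g - h ∧
      14144 * s ^ 2 + 459 * s + 2 = t * h - g ∧ 17408 * s ^ 2 - 272 * s + 1 = t * g + h := by
    intro t ht
    obtain ⟨h1, h2, h3, h4, h5, h6⟩ := hall t ht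
    have h7 : (t ^ 2 + 1) ∣ (10880 * s + 19 + 128 * t) ^ 2 + 26775 := by
      obtain ⟨c, hc⟩ := h4.trans hs
      obtain ⟨e, he⟩ := h6
      refine ⟨e + c * (10880 * s + 19 + σ₀ + 256 * t), ?_⟩
      linear_combination he + (10880 * s + 19 + σ₀ + 256 * t) * hc
    obtain ⟨y, z, g, h, g1, g2, g3, g4, g5, g6, g7, g8, g9⟩ := flip hs1 h1 h3 h5 h7
    rw [← hbz, ← hb] at g2 g4 g5 g6
    obtain ⟨y', rfl⟩ := Int.eq_ofNat_of_zero_le g1
    obtain ⟨z', rfl⟩ := Int.eq_ofNat_of_zero_le g3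
    exact ⟨y', z', g, h, by exact_mod_cast g2, by exact_mod_cast g4, by exact_mod_cast g5, g6, g7,
      g8, g9⟩
  choose! y z g h hy hz heq h1 h2 h3 h4 using key
  have hUpos : 0 < 14144 * s ^ 2 + 459 * s + 2 := by positivity
  refine ⟨b, hb3, S.image (fun t => 2 * b ^ 2 + y t * b + z t), ?_, ?_⟩
  · rw [Finset.card_image_of_injOn, hS]
    intro t ht t' ht' hab
    simp only at hab
    have ht0 := Finset.mem_coe.1 ht
    have ht0' := Finset.mem_coe.1 ht'
    have hdig : [z t, y t, 2] = [z t', y t', 2] := by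
      rw [← digits_three hb3 (hy t ht0) (hz t ht0), ← digits_three hb3 (hy t' ht0') (hz t' ht0'), hab]
    have hzz : z t = z t' := by
      have := congrArg List.head? hdig
      simpa using this
    have hyy : y t = y t' := by
      have := congrArg (fun l => l.tail.head?) hdig
      simpa using this
    have k1 := h1 t ht0
    have k1' := h1 t' ht0'
    have k2 := h2 t ht0
    have k2' := h2 t' ht0'
    have k3 := h3 t ht0
    have k3' := h3 t' ht0'
    have k4 := h4 t ht0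
    have k4' := h4 t' ht0'
    rw [hyy] at k1
    rw [hzz] at k2
    have hg : g t = g t' := by linarith
    have hh : h t = h t' := by linarith
    rw [hg, hh] at k3 k4
    have m1 : (t - t') * h t' = 0 := by linarith
    have m2 : (t - t') * g t' = 0 := by linarith
    by_contra hne
    have hne' : t - t' ≠ 0 := sub_ne_zero.2 hne
    have m3 : h t' = 0 := (mul_eq_zero.1 m1).resolve_left hne'
    have m4 : g t' = 0 := (mul_eq_zero.1 m2).resolve_left hne'
    rw [m3, m4] at k3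
    linarith
  · intro a ha
    rw [Finset.mem_image] at ha
    obtain ⟨t, ht, rfl⟩ := ha
    exact ⟨by positivity, fixed hb3 (hy t ht) (hz t ht) (heq t ht)⟩

/-- **Main theorem.**  `C(b)` is unbounded as `b` increases: for every `M` there is a base `b ≥ 2`
such that the base-`b` elated function has more than `M` cycles; in fact more than `M` fixed
points. -/
theorem result : (∀ M : ℕ, ∃ b : ℕ, 2 ≤ b ∧ (M : ℕ∞) < C b) ∧
    ∀ M : ℕ, ∃ b : ℕ, 2 ≤ b ∧ ∃ S : Finset ℕ, M < S.card ∧ ∀ a ∈ S, 0 < a ∧ E b a = a := by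
  constructor
  · intro M
    obtain ⟨b, hb, S, hS, h⟩ := exists_base M
    exact ⟨b, by omega, lt_C S hS (fun a ha => (h a ha).1) (fun a ha => (h a ha).2)⟩
  · intro M
    obtain ⟨b, hb, S, hS, h⟩ := exists_base M
    exact ⟨b, by omega, S, by omega, h⟩

end Pool.Agent.Results.MP_096971_nt.UnboundedCycles
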